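import Pool.Agent.H34.FS.Targets

/-!
# PR2: the number of the pairs of parallel vectors
-/

set_option autoImplicit false

open Finset Pool.Agent.H32.RQ Pool.Agent.H34.FQ

namespace Pool.Agent.H30.HFS

open Pool.Agent.H34.FS

private theorem prim {n : ℕ} (v v' : Fin n → ℤ) (hv : v ≠ 0)
    (hpar : ∀ i j, v i * v' j = v j * v' i) :
    ∃ (u : Fin n → ℤ) (a a' : ℤ), u ≠ 0 ∧ a ≠ 0 ∧ (∀ i, v i = a * u i) ∧
      (∀ i, v' i = a' * u i) := by
  obtain ⟨a, ha⟩ := (IsPrincipalIdealRing.principal (Ideal.span (Set.range v))).principal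
  have h1 : ∀ i, a ∣ v i := by
    intro i
    have h : v i ∈ Ideal.span (Set.range v) := Ideal.subset_span ⟨i, rfl⟩
    rw [ha] at h
    exact Ideal.mem_span_singleton.1 h
  choose u hu using h1
  have ha0 : a ≠ 0 := by
    intro h0
    apply hv
    funext i
    rw [hu i, h0, zero_mul]
    rfl
  have h2 : a ∈ Ideal.span (Set.range v) := by
    rw [ha]
    exact Ideal.mem_span_singleton_self a
  rw [Ideal.mem_span_range_iff_exists_fun] at h2
  obtain ⟨b, hb⟩ := h2
  have hub : ∑ i, b i * u i = 1 := by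
    apply mul_left_cancel₀ ha0
    rw [mul_one, mul_sum]
    calc ∑ i, a * (b i * u i) = ∑ i, b i * v i := by
          refine sum_congr rfl fun i _ => ?_
          rw [hu i]
          ring
      _ = a := hb
  have hsw : ∀ i j, u i * v' j = u j * v' i := by
    intro i j
    apply mul_left_cancel₀ ha0
    calc a * (u i * v' j) = v i * v' j := by rw [hu i]; ring
      _ = v j * v' i := hpar i j
      _ = a * (u j * v' i) := by rw [hu j]; ring
  refine ⟨u, a, ∑ i, b i * v' i, ?_, ha0, hu, fun j => ?_⟩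
  · intro h0
    rw [h0] at hub
    simp at hub
  · calc v' j = (∑ i, b i * u i) * v' j := by rw [hub, one_mul]
      _ = (∑ i, b i * v' i) * u j := by
          rw [sum_mul, sum_mul]
          refine sum_congr rfl fun i _ => ?_
          have := hsw i j
          calc b i * u i * v' j = b i * (u i * v' j) := by ring
            _ = b i * (u j * v' i) := by rw [this]
            _ = b i * v' i * u j := by ring

private theorem mem_vb {r B : ℕ} {x : Fin r → ℤ} : x ∈ vb r B ↔ ∀ i, |x i| ≤ (B : ℤ) := by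
  unfold vb
  rw [Fintype.mem_piFinset]
  refine forall_congr' fun i => ?_
  rw [Finset.mem_Icc, abs_le]

private theorem card_vb (r B : ℕ) : (vb r B).card = (2 * B + 1) ^ r := by
  unfold vb
  rw [Fintype.card_piFinset]
  simp only [Int.card_Icc, Finset.prod_const, Finset.card_univ, Fintype.card_fin]
  congr 1
  omega

/-- the pairs of multipliers of size `h` -/
private noncomputable def Ah (h : ℕ) : Finset (ℤ × ℤ) :=
  (Finset.Icc (-(h : ℤ)) h ×ˢ ({(h : ℤ), -(h : ℤ)} : Finset ℤ)) ∪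
    (({(h : ℤ), -(h : ℤ)} : Finset ℤ) ×ˢ Finset.Icc (-(h : ℤ)) h)

private theorem card_Ah (h : ℕ) (hh : 1 ≤ h) : (Ah h).card ≤ 12 * h := by
  unfold Ah
  have h1 : ({(h : ℤ), -(h : ℤ)} : Finset ℤ).card ≤ 2 := Finset.card_le_two
  have h2 : (Finset.Icc (-(h : ℤ)) h).card = 2 * h + 1 := by
    rw [Int.card_Icc]
    omega
  refine le_trans (Finset.card_union_le _ _) ?_
  rw [Finset.card_product, Finset.card_product, h2]
  have h3 : (2 * h + 1) * ({(h : ℤ), -(h : ℤ)} : Finset ℤ).card ≤ (2 * h + 1) * 2 :=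
    Nat.mul_le_mul_left _ h1
  have h4 : ({(h : ℤ), -(h : ℤ)} : Finset ℤ).card * (2 * h + 1) ≤ 2 * (2 * h + 1) :=
    Nat.mul_le_mul_right _ h1
  omega

private theorem mem_Ah (a b : ℤ) : (a, b) ∈ Ah (max a.natAbs b.natAbs) := by
  unfold Ah
  rw [Finset.mem_union, Finset.mem_product, Finset.mem_product]
  simp only [Finset.mem_Icc, Finset.mem_insert, Finset.mem_singleton]
  omega

private theorem sum_sq (B : ℕ) (hB : 1 ≤ B) :
    ∑ h ∈ Finset.Icc 1 B, (1 : ℝ) / (h : ℝ) ^ 2 ≤ 2 - 1 / B := by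
  induction B with
  | zero => omega
  | succ B ih =>
    rcases Nat.eq_zero_or_pos B with h0 | h0
    · rw [h0]
      norm_num
    · rw [Finset.sum_Icc_succ_top (by omega)]
      have h1 := ih h0
      have hB' : (0 : ℝ) < B := by exact_mod_cast h0
      have h2 : (1 : ℝ) / ((B + 1 : ℕ) : ℝ) ^ 2 ≤ 1 / B - 1 / ((B + 1 : ℕ) : ℝ) := by
        push_cast
        rw [div_sub_div _ _ (by positivity) (by positivity), div_le_div_iff₀ (by positivity)
          (by positivity)]
        nlinarith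
      linarith

theorem pf_PR2 : T_PR2 := by
  classical
  intro r hr
  refine ⟨1 + 24 * 3 ^ r, by positivity, fun B hB => ?_⟩
  have hsub : ((vb r B ×ˢ vb r B).filter fun q => dm q.1 q.2 = 0) ⊆
      {((0 : Fin r → ℤ), (0 : Fin r → ℤ))} ∪ (Finset.Icc 1 B).biUnion fun h =>
        (Ah h ×ˢ vb r (B / h)).image fun t => ((fun i => t.1.1 * t.2 i, fun i => t.1.2 * t.2 i) :
          (Fin r → ℤ) × (Fin r → ℤ)) := by
    rintro ⟨x, y⟩ hq
    rw [Finset.mem_filter, Finset.mem_product, mem_vb, mem_vb] at hq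
    obtain ⟨⟨hx, hy⟩, hd⟩ := hq
    have hpar : ∀ i j, x i * y j = x j * y i := by
      intro i j
      have h1 : (mnr x y i j).natAbs ≤ dm x y :=
        Finset.le_sup (f := fun p : Fin r × Fin r => (mnr x y p.1 p.2).natAbs)
          (Finset.mem_univ (i, j))
      have h2 : dm x y = 0 := hd
      have h3 : mnr x y i j = 0 := by omega
      unfold mnr at h3
      linarith
    rw [Finset.mem_union, Finset.mem_singleton]
    by_cases h00 : x = 0 ∧ y = 0
    · left
      rw [h00.1, h00.2]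
    · right
      have hkey : ∃ (u : Fin r → ℤ) (a b : ℤ), u ≠ 0 ∧ (a ≠ 0 ∨ b ≠ 0) ∧ (∀ i, x i = a * u i) ∧
          (∀ i, y i = b * u i) := by
        by_cases hx0 : x = 0
        · have hy0 : y ≠ 0 := fun h => h00 ⟨hx0, h⟩
          obtain ⟨u, a, a', h1, h2, h3, h4⟩ := prim y x hy0 fun i j => by
            have := hpar i j
            linarith [hpar i j, mul_comm (x i) (y j), mul_comm (x j) (y i)]
          exact ⟨u, a', a, h1, Or.inr h2, h4, h3⟩
        · obtain ⟨u, a, a', h1, h2, h3, h4⟩ := prim x y hx0 hpar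
          exact ⟨u, a, a', h1, Or.inl h2, h3, h4⟩
      obtain ⟨u, a, b, hu, hab, hxu, hyu⟩ := hkey
      obtain ⟨i0, hi0⟩ := Function.ne_iff.1 hu
      have hi0' : u i0 ≠ 0 := hi0
      have hbd : ∀ i, max a.natAbs b.natAbs * (u i).natAbs ≤ B := by
        intro i
        have h1 : |x i| ≤ (B : ℤ) := hx i
        have h2 : |y i| ≤ (B : ℤ) := hy i
        rw [hxu i, Int.abs_eq_natAbs, Int.natAbs_mul] at h1
        rw [hyu i, Int.abs_eq_natAbs, Int.natAbs_mul] at h2
        have h3 : a.natAbs * (u i).natAbs ≤ B := by exact_mod_cast h1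
        have h4 : b.natAbs * (u i).natAbs ≤ B := by exact_mod_cast h2
        rcases max_choice a.natAbs b.natAbs with h | h
        · rw [h]; exact h3
        · rw [h]; exact h4
      have h1 : 1 ≤ max a.natAbs b.natAbs := by omega
      have h2 : max a.natAbs b.natAbs ≤ B := by
        have h3 : 1 ≤ (u i0).natAbs := by omega
        have h4 := hbd i0
        nlinarith
      rw [Finset.mem_biUnion]
      refine ⟨max a.natAbs b.natAbs, Finset.mem_Icc.2 ⟨h1, h2⟩, ?_⟩
      rw [Finset.mem_image]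
      refine ⟨((a, b), u), ?_, ?_⟩
      · rw [Finset.mem_product]
        refine ⟨mem_Ah a b, ?_⟩
        rw [mem_vb]
        intro i
        have h3 : (u i).natAbs ≤ B / max a.natAbs b.natAbs := by
          rw [Nat.le_div_iff_mul_le (by omega), mul_comm]
          exact hbd i
        rw [Int.abs_eq_natAbs]
        exact_mod_cast h3
      · refine Prod.ext ?_ ?_
        · funext i
          exact (hxu i).symm
        · funext i
          exact (hyu i).symm
  have hcard : (((vb r B ×ˢ vb r B).filter fun q => dm q.1 q.2 = 0).card : ℝ) ≤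
      1 + ∑ h ∈ Finset.Icc 1 B, (12 * h : ℝ) * (3 * B / h : ℝ) ^ r := by
    have h1 := (Finset.card_le_card hsub).trans (Finset.card_union_le _ _)
    rw [Finset.card_singleton] at h1
    have h2 := h1.trans (Nat.add_le_add_left Finset.card_biUnion_le 1)
    have h3 : ((1 + ∑ h ∈ Finset.Icc 1 B, ((Ah h ×ˢ vb r (B / h)).image fun t =>
        ((fun i => t.1.1 * t.2 i, fun i => t.1.2 * t.2 i) :
          (Fin r → ℤ) × (Fin r → ℤ))).card : ℕ) : ℝ) ≤
        1 + ∑ h ∈ Finset.Icc 1 B, (12 * h : ℝ) * (3 * B / h : ℝ) ^ r := by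
      push_cast
      refine add_le_add le_rfl (Finset.sum_le_sum fun h hh => ?_)
      obtain ⟨hh1, hh2⟩ := Finset.mem_Icc.1 hh
      have h4 : ((Ah h ×ˢ vb r (B / h)).image fun t =>
          ((fun i => t.1.1 * t.2 i, fun i => t.1.2 * t.2 i) :
          (Fin r → ℤ) × (Fin r → ℤ))).card ≤ (12 * h) * (2 * (B / h) + 1) ^ r := by
        refine Finset.card_image_le.trans ?_
        rw [Finset.card_product, card_vb]
        exact Nat.mul_le_mul_right _ (card_Ah h hh1)
      have h5 : (((Ah h ×ˢ vb r (B / h)).image fun t =>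
          ((fun i => t.1.1 * t.2 i, fun i => t.1.2 * t.2 i) :
          (Fin r → ℤ) × (Fin r → ℤ))).card : ℝ) ≤ (12 * h) * (2 * ((B / h : ℕ) : ℝ) + 1) ^ r := by
        exact_mod_cast h4
      refine h5.trans ?_
      have hh0 : (0 : ℝ) < h := by exact_mod_cast hh1
      have h6 : ((B / h : ℕ) : ℝ) ≤ B / h := Nat.cast_div_le
      have h7 : (1 : ℝ) ≤ B / h := by
        rw [one_le_div hh0]
        exact_mod_cast hh2
      have h8 : 2 * ((B / h : ℕ) : ℝ) + 1 ≤ 3 * B / h := by
        rw [mul_div_assoc]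
        linarith
      exact mul_le_mul_of_nonneg_left (pow_le_pow_left₀ (by positivity) h8 r) (by positivity)
    refine le_trans ?_ h3
    exact_mod_cast h2
  refine hcard.trans ?_
  have hB0 : (0 : ℝ) < B := by exact_mod_cast hB
  have hB1 : (1 : ℝ) ≤ (B : ℝ) ^ r := one_le_pow₀ (by exact_mod_cast hB)
  have h9 : ∑ h ∈ Finset.Icc 1 B, (12 * h : ℝ) * (3 * B / h : ℝ) ^ r ≤
      ∑ h ∈ Finset.Icc 1 B, (12 * 3 ^ r * (B : ℝ) ^ r) * (1 / (h : ℝ) ^ 2) := by
    refine Finset.sum_le_sum fun h hh => ?_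
    obtain ⟨hh1, hh2⟩ := Finset.mem_Icc.1 hh
    have hh0 : (0 : ℝ) < h := by exact_mod_cast hh1
    have hh1' : (1 : ℝ) ≤ h := by exact_mod_cast hh1
    have e : (12 * h : ℝ) * (3 * B / h : ℝ) ^ r = (12 * 3 ^ r * (B : ℝ) ^ r) * (h / (h : ℝ) ^ r) := by
      rw [div_pow, mul_pow]
      ring
    rw [e]
    refine mul_le_mul_of_nonneg_left ?_ (by positivity)
    rw [div_le_div_iff₀ (by positivity) (by positivity), one_mul]
    calc (h : ℝ) * (h : ℝ) ^ 2 = (h : ℝ) ^ 3 := by ring
      _ ≤ (h : ℝ) ^ r := pow_le_pow_right₀ hh1' hr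
  rw [← Finset.mul_sum] at h9
  have h10 := sum_sq B hB
  have h11 : ∑ h ∈ Finset.Icc 1 B, (1 : ℝ) / (h : ℝ) ^ 2 ≤ 2 := by
    have : (0 : ℝ) < 1 / B := by positivity
    linarith
  have h12 : (12 * 3 ^ r * (B : ℝ) ^ r) * ∑ h ∈ Finset.Icc 1 B, (1 : ℝ) / (h : ℝ) ^ 2 ≤
      (12 * 3 ^ r * (B : ℝ) ^ r) * 2 := mul_le_mul_of_nonneg_left h11 (by positivity)
  calc 1 + ∑ h ∈ Finset.Icc 1 B, (12 * h : ℝ) * (3 * B / h : ℝ) ^ r
      ≤ 1 + (12 * 3 ^ r * (B : ℝ) ^ r) * 2 := by linarith
    _ ≤ (1 + 24 * 3 ^ r) * (B : ℝ) ^ r := by nlinarith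

end Pool.Agent.H30.HFS
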