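import Pool.Agent.H34.FS.Targets

/-!
# ZTR: the number of the frequencies at which the correlation does not vanish
-/

set_option autoImplicit false

open Finset Pool.Agent.H32.RQ Pool.Agent.H34.FQ

namespace Pool.Agent.H30.HFS

open Pool.Agent.H34.FS

/-- the number of the `u` for which `u v + a` is small -/
private theorem count (Q J : ℕ) [NeZero Q] (v : ℤ) (hv : v ≠ 0) (hvJ : |v| ≤ J) (a : ZMod Q) :
    (univ.filter fun u : ZMod Q => |(u * (v : ZMod Q) + a).valMinAbs| < (J : ℤ)).card ≤ 3 * J := by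
  obtain ⟨g, hg⟩ : ∃ g, g = Nat.gcd v.natAbs Q := ⟨_, rfl⟩
  have hQ0 : 0 < Q := Nat.pos_of_ne_zero (NeZero.ne Q)
  have hg0 : 0 < g := by rw [hg]; exact Nat.gcd_pos_of_pos_right _ hQ0
  have hgv : g ∣ v.natAbs := by rw [hg]; exact Nat.gcd_dvd_left _ _
  have hgQ : g ∣ Q := by rw [hg]; exact Nat.gcd_dvd_right _ _
  obtain ⟨q, hq⟩ := hgQ
  have hq0 : 0 < q := by
    rcases Nat.eq_zero_or_pos q with h | h
    · rw [h, mul_zero] at hq; omega
    · exact h
  have hvJ' : v.natAbs ≤ J := by
    rw [Int.abs_eq_natAbs] at hvJ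
    exact_mod_cast hvJ
  have hJ : 1 ≤ J := by omega
  have hgJ : g ≤ J := le_trans (Nat.le_of_dvd (by omega) hgv) hvJ'
  obtain ⟨v', hv'⟩ : ∃ v' : ℤ, v = g * v' := by
    have h : (g : ℤ) ∣ v := Int.natCast_dvd.2 hgv
    exact h
  have hcop : IsCoprime (q : ℤ) v' := by
    rw [Int.isCoprime_iff_nat_coprime]
    have h1 : v.natAbs = g * v'.natAbs := by
      rw [hv', Int.natAbs_mul, Int.natAbs_natCast]
    have h2 : g * Nat.gcd v'.natAbs q = g * 1 := by
      rw [← Nat.gcd_mul_left, ← h1, ← hq, ← hg, mul_one]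
    have h3 := Nat.eq_of_mul_eq_mul_left hg0 h2
    rw [Int.natAbs_natCast]
    exact Nat.Coprime.symm h3
  have hcard : (univ.filter fun u : ZMod Q =>
      |(u * (v : ZMod Q) + a).valMinAbs| < (J : ℤ)).card ≤
      (range g ×ˢ range ((2 * J - 2) / g + 1)).card := by
    refine Finset.card_le_card_of_injOn (fun u => (u.val / q,
      ((u * (v : ZMod Q) + a).valMinAbs + J - 1).toNat / g)) ?_ ?_
    · intro u hu
      have hu1 : |(u * (v : ZMod Q) + a).valMinAbs| < (J : ℤ) := by simpa using hu
      rw [abs_lt] at hu1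
      have h1 : u.val / q < g := by
        rw [Nat.div_lt_iff_lt_mul hq0, ← hq]
        exact ZMod.val_lt u
      have h2 : ((u * (v : ZMod Q) + a).valMinAbs + J - 1).toNat / g < (2 * J - 2) / g + 1 := by
        refine Nat.lt_succ_of_le (Nat.div_le_div_right ?_)
        omega
      simp only [Finset.coe_product, Finset.coe_range, Set.mem_prod, Set.mem_Iio]
      exact ⟨h1, h2⟩
    · intro u hu u' hu' heq
      have hu1 : |(u * (v : ZMod Q) + a).valMinAbs| < (J : ℤ) := by simpa using hu
      have hu1' : |(u' * (v : ZMod Q) + a).valMinAbs| < (J : ℤ) := by simpa using hu'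
      rw [abs_lt] at hu1 hu1'
      have he1 : u.val / q = u'.val / q := (Prod.ext_iff.1 heq).1
      have he2 : ((u * (v : ZMod Q) + a).valMinAbs + J - 1).toNat / g =
        ((u' * (v : ZMod Q) + a).valMinAbs + J - 1).toNat / g := (Prod.ext_iff.1 heq).2
      -- the values are congruent modulo g
      have key : ∀ w : ZMod Q, (g : ℤ) ∣ (w * (v : ZMod Q) + a).valMinAbs - a.val := by
        intro w
        have h1 : (((w * (v : ZMod Q) + a).valMinAbs - (w.val : ℤ) * v - (a.val : ℤ) : ℤ) :
            ZMod Q) = 0 := by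
          push_cast
          rw [ZMod.natCast_zmod_val, ZMod.natCast_zmod_val]
          ring
        rw [ZMod.intCast_zmod_eq_zero_iff_dvd] at h1
        have h2 : (g : ℤ) ∣ (Q : ℤ) := ⟨q, by exact_mod_cast hq⟩
        have h3 := dvd_trans h2 h1
        have h4 : (g : ℤ) ∣ (w.val : ℤ) * v := Dvd.dvd.mul_left ⟨v', hv'⟩ _
        have h5 := dvd_add h3 h4
        have h6 : (w * (v : ZMod Q) + a).valMinAbs - (w.val : ℤ) * v - (a.val : ℤ) +
          (w.val : ℤ) * v = (w * (v : ZMod Q) + a).valMinAbs - a.val := by ring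
        rwa [h6] at h5
      have hk : (u * (v : ZMod Q) + a).valMinAbs = (u' * (v : ZMod Q) + a).valMinAbs := by
        have h1 := dvd_sub (key u) (key u')
        obtain ⟨s, hs⟩ := h1
        have h2 : (u * (v : ZMod Q) + a).valMinAbs - (u' * (v : ZMod Q) + a).valMinAbs =
            g * s := by linarith
        obtain ⟨m, hm⟩ : ∃ m : ℕ, m = ((u * (v : ZMod Q) + a).valMinAbs + J - 1).toNat :=
          ⟨_, rfl⟩
        obtain ⟨m', hm'⟩ : ∃ m' : ℕ, m' = ((u' * (v : ZMod Q) + a).valMinAbs + J - 1).toNat :=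
          ⟨_, rfl⟩
        rw [← hm, ← hm'] at he2
        have h3 : (m : ℤ) - m' = g * s := by omega
        have h4 : (m : ℤ) % g = (m' : ℤ) % g := by
          rw [Int.emod_eq_emod_iff_emod_sub_eq_zero, h3, Int.mul_emod_right]
        have h5 : m % g = m' % g := by exact_mod_cast h4
        have h6 : m = m' := by
          rw [← Nat.div_add_mod m g, ← Nat.div_add_mod m' g, he2, h5]
        omega
      have ht : u * (v : ZMod Q) + a = u' * (v : ZMod Q) + a := ZMod.valMinAbs_inj.1 hk
      have huv : u * (v : ZMod Q) = u' * (v : ZMod Q) := add_right_cancel ht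
      have hd : (Q : ℤ) ∣ ((u.val : ℤ) - u'.val) * v := by
        rw [← ZMod.intCast_zmod_eq_zero_iff_dvd]
        push_cast
        rw [ZMod.natCast_zmod_val, ZMod.natCast_zmod_val, sub_mul, huv, sub_self]
      have hd2 : (q : ℤ) ∣ ((u.val : ℤ) - u'.val) := by
        have hqz : (Q : ℤ) = g * q := by exact_mod_cast hq
        have h1 : ((u.val : ℤ) - u'.val) * v = g * (((u.val : ℤ) - u'.val) * v') := by
          rw [hv']
          ring
        rw [h1, hqz] at hd
        have h2 := Int.dvd_of_mul_dvd_mul_left (by exact_mod_cast hg0.ne') hd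
        exact IsCoprime.dvd_of_dvd_mul_right hcop h2
      obtain ⟨s, hs⟩ := hd2
      have h4 : (u.val : ℤ) % q = (u'.val : ℤ) % q := by
        rw [Int.emod_eq_emod_iff_emod_sub_eq_zero, hs, Int.mul_emod_right]
      have h5 : u.val % q = u'.val % q := by exact_mod_cast h4
      have h6 : u.val = u'.val := by
        rw [← Nat.div_add_mod u.val q, ← Nat.div_add_mod u'.val q, he1, h5]
      exact ZMod.val_injective Q h6
  refine le_trans hcard ?_
  rw [Finset.card_product, Finset.card_range, Finset.card_range, mul_add, mul_one]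
  have h1 := Nat.mul_div_le (2 * J - 2) g
  omega

theorem pf_ZTR : T_ZTR := by
  intro r c J Q _ x y hc hcJ hxy hne
  obtain ⟨i, hi⟩ := Function.ne_iff.1 hne
  have hv : x i - y i ≠ 0 := sub_ne_zero.2 hi
  have h1 : (zl Q J (cv (c : ℤ) x) (cv (c : ℤ) y)).card ≤ (3 * J) *
      (univ.filter fun s : ZMod Q => |(s * ((c : ℤ) : ZMod Q) + 0).valMinAbs| < (J : ℤ)).card := by
    refine Finset.card_le_mul_card_image_of_maps_to (f := fun q : ZMod Q × ZMod Q => q.1 + q.2)
      ?_ _ ?_
    · intro q hq
      have h := (Finset.mem_filter.1 hq).2 0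
      rw [Finset.mem_filter]
      refine ⟨Finset.mem_univ _, ?_⟩
      have h2 : q.1 * ((cv (c : ℤ) x 0 : ℤ) : ZMod Q) + q.2 * ((cv (c : ℤ) y 0 : ℤ) : ZMod Q) =
          (q.1 + q.2) * ((c : ℤ) : ZMod Q) + 0 := by
        simp only [cv, Fin.cons_zero]
        ring
      rw [h2] at h
      exact h
    · intro s _
      refine le_trans ?_ (count Q J (x i - y i) hv (hxy i) (s * (y i : ZMod Q)))
      refine Finset.card_le_card_of_injOn (fun q => q.1) ?_ ?_
      · intro q hq
        have hq' := Finset.mem_filter.1 (Finset.mem_coe.1 hq)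
        have h := (Finset.mem_filter.1 hq'.1).2 i.succ
        have hs := hq'.2
        rw [Finset.mem_coe, Finset.mem_filter]
        refine ⟨Finset.mem_univ _, ?_⟩
        have h2 : q.1 * ((cv (c : ℤ) x i.succ : ℤ) : ZMod Q) +
            q.2 * ((cv (c : ℤ) y i.succ : ℤ) : ZMod Q) =
            q.1 * ((x i - y i : ℤ) : ZMod Q) + s * (y i : ZMod Q) := by
          simp only [cv, Fin.cons_succ]
          rw [← hs]
          push_cast
          ring
        rw [h2] at h
        exact h
      · intro q hq q' hq' heq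
        have h1 := (Finset.mem_filter.1 (Finset.mem_coe.1 hq)).2
        have h2 := (Finset.mem_filter.1 (Finset.mem_coe.1 hq')).2
        have h3 : q.1 = q'.1 := heq
        refine Prod.ext h3 ?_
        have h4 : q.1 + q.2 = q'.1 + q'.2 := by rw [h1, h2]
        rw [h3] at h4
        exact add_left_cancel h4
  have h2 := count Q J (c : ℤ) (by omega) (by rw [abs_of_nonneg (by positivity)]; exact_mod_cast hcJ)
    (0 : ZMod Q)
  calc _ ≤ _ := h1
    _ ≤ (3 * J) * (3 * J) := Nat.mul_le_mul_left _ h2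
    _ = 9 * J ^ 2 := by ring

end Pool.Agent.H30.HFS
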